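import Pool.Agent.Run7.h146.Met.I2

/-! Piece LOCP of the project MP_dd21b1_pr (helper146): locality constants. -/

set_option autoImplicit false

open MeasureTheory Filter Topology ENNReal

namespace Run7.h904.Met

open Run7.h146.Met

theorem mem_del {α : Type*} (z w : α) (F : Finset α) : w ∈ del z F ↔ w ≠ z ∧ w ∈ F := by
  unfold del
  exact @Finset.mem_erase _ (fun a b => Classical.propDecidable (a = b)) _ _ _

theorem nch_mono_time {d : ℕ} (ε : ℝ) (k : ℕ) (z : X d) (F : Finset (X d)) {s s' : ℝ≥0∞}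
    (h : s ≤ s') : nch ε k z s F ≤ nch ε k z s' F := by
  classical
  cases k with
  | zero => simp [nch]
  | succ k =>
    simp only [nch]
    refine Finset.sum_le_sum fun y _ => ?_
    split_ifs with h1 h2
    · exact le_rfl
    · exact absurd ⟨h1.1, lt_of_lt_of_le h1.2 h⟩ h2
    · exact zero_le
    · exact le_rfl

theorem nch_mono_set {d : ℕ} (ε : ℝ) (k : ℕ) : ∀ (z : X d) (s : ℝ≥0∞) (F G : Finset (X d)),
    F ⊆ G → nch ε k z s F ≤ nch ε k z s G := by
  classical
  induction k with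
  | zero => intro z s F G _; simp [nch]
  | succ k ih =>
    intro z s F G h
    simp only [nch]
    refine (Finset.sum_le_sum (fun y _ => ?_)).trans
      (Finset.sum_le_sum_of_subset h)
    split_ifs with h1
    · refine ih _ _ _ _ ?_
      intro w hw
      rw [mem_del] at hw ⊢
      exact ⟨hw.1, h hw.2⟩
    · exact le_rfl

theorem nch_nat {d : ℕ} (ε : ℝ) (k : ℕ) : ∀ (z : X d) (s : ℝ≥0∞) (F : Finset (X d)),
    ∃ n : ℕ, nch ε k z s F = (n : ℝ≥0∞) := by
  classical
  induction k with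
  | zero => intro z s F; exact ⟨1, by simp [nch]⟩
  | succ k ih =>
    intro z s F
    choose n hn using ih
    refine ⟨∑ y ∈ F, if 0 < ct ε z y ∧ ct ε z y < s then n y (ct ε z y) (del y F) else 0, ?_⟩
    simp only [nch]
    push_cast
    refine Finset.sum_congr rfl fun y _ => ?_
    split_ifs with h1
    · exact hn _ _ _
    · simp

theorem one_le_nch {d : ℕ} (ε : ℝ) (k : ℕ) (z : X d) (s : ℝ≥0∞) (F : Finset (X d))
    (h : nch ε k z s F ≠ 0) : 1 ≤ nch ε k z s F := by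
  obtain ⟨n, hn⟩ := nch_nat ε k z s F
  rw [hn] at h ⊢
  have : n ≠ 0 := by rintro rfl; simp at h
  exact_mod_cast Nat.one_le_iff_ne_zero.2 this

theorem fact_est {M a r ε : ℝ} {K : ℕ} (hε : 0 < ε) (hM : M = Real.exp (32 * ε)) (ha : 0 ≤ a)
    (hMa : M * a ≤ r) (hK : r / (16 * ε) ≤ K) :
    a ^ K / K.factorial ≤ Real.exp (-r) := by
  have hMpos : 0 < M := by rw [hM]; exact Real.exp_pos _
  have h1 : (M * a) ^ K / K.factorial ≤ Real.exp (M * a) :=
    Real.pow_div_factorial_le_exp _ (by positivity) _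
  have h2 : a ^ K / K.factorial = ((M * a) ^ K / K.factorial) / M ^ K := by
    rw [mul_pow]; field_simp
  have h3 : M ^ K = Real.exp (32 * ε * K) := by
    rw [hM, ← Real.exp_nat_mul]; ring_nf
  have h4 : 2 * r ≤ 32 * ε * K := by
    have := (div_le_iff₀ (by positivity)).1 hK
    nlinarith
  rw [h2, h3, div_le_iff₀ (Real.exp_pos _), ← Real.exp_add]
  refine h1.trans (Real.exp_le_exp.2 ?_)
  linarith

theorem t_LOCP : S_PO1 → S_MB → S_LOCD → S_EN → S_LOCP := by
  classical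
  intro PO1 MB LOCD EN d ε hd hε
  obtain ⟨hTM, C₁, hC₁, hEN⟩ := EN d ε hd hε
  obtain ⟨M, hM⟩ : ∃ M : ℝ, M = Real.exp (32 * ε) := ⟨_, rfl⟩
  have hMpos : 0 < M := by rw [hM]; exact Real.exp_pos _
  have hC₁pos : 0 < C₁ := by linarith
  obtain ⟨κ, hκ⟩ : ∃ κ : ℝ, κ = min (1 / 16) (1 / (2 * M * C₁)) := ⟨_, rfl⟩
  have hκpos : 0 < κ := by rw [hκ]; positivity
  have hκ16 : κ ≤ 1 / 16 := by rw [hκ]; exact min_le_left _ _
  have hκM : κ * (2 * M * C₁) ≤ 1 := by
    have : κ ≤ 1 / (2 * M * C₁) := by rw [hκ]; exact min_le_right _ _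
    exact (le_div_iff₀ (by positivity)).1 this
  refine ⟨κ, 1, 8 + 8 * ε + 16 * ε + 2 * M * C₁, hκpos, hκ16, le_rfl, ?_, ?_, ?_⟩
  · have : 0 < 2 * M * C₁ := by positivity
    linarith
  · intro F z r t hF hz hzF hr ht htκ hL
    have hMC : 0 < 2 * M * C₁ := by positivity
    have hr8 : 8 + 8 * ε ≤ r := by linarith
    have hrpos : 0 < r := by linarith
    unfold Loc at hL
    have hS : ∀ y, y ∈ res (Metric.ball z.1 r) F ↔ y ∈ F ∧ y.1 ∈ Metric.ball z.1 r := by
      intro y; unfold res; exact Finset.mem_filter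
    refine (LOCD d ε hε (res (Metric.ball z.1 r) F) F z t ⌊r / (8 * ε)⌋₊ ht ?_ hzF hz ?_ hF ?_ ?_).symm
    · intro h; exact hzF ((hS z).1 h).1
    · intro y hy; exact hF y ((hS y).1 hy).1
    · refine le_antisymm ?_ zero_le
      rw [← hL]
      exact nch_mono_time ε _ z _ (ENNReal.ofReal_le_ofReal (by linarith))
    · intro y hy
      rw [hS]
      refine ⟨fun h => h.1, fun h => ⟨h, ?_⟩⟩
      rw [Metric.mem_ball, dist_eq_norm]
      refine lt_of_le_of_lt hy ?_
      have hfl : (⌊r / (8 * ε)⌋₊ : ℝ) ≤ r / (8 * ε) := Nat.floor_le (by positivity)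
      have h2 : 2 * ε * (⌊r / (8 * ε)⌋₊ : ℝ) ≤ r / 4 := by
        calc 2 * ε * (⌊r / (8 * ε)⌋₊ : ℝ) ≤ 2 * ε * (r / (8 * ε)) := by gcongr
          _ = r / 4 := by field_simp; ring
      nlinarith
  · intro B hB hBf r z hr hz
    have hMC : 0 < 2 * M * C₁ := by positivity
    have hrpos : 0 < r := by linarith
    obtain ⟨hfin, -, -, -⟩ := (MB d hd).2.2.2 B hB hBf
    obtain ⟨-, -, hmeas, -⟩ := PO1 d (mB B)
    have hm : Measurable (fun F : Finset (X d) => nch ε ⌊r / (8 * ε)⌋₊ z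
        (ENNReal.ofReal (κ * r + 1)) F) :=
      hmeas (X d × ℝ≥0∞) (fun p F => nch ε ⌊r / (8 * ε)⌋₊ p.1 p.2 F) (hTM _)
        (z, ENNReal.ofReal (κ * r + 1))
    have hκr : 0 ≤ κ * r := by positivity
    have hsub : {F : Finset (X d) | ¬ Loc ε κ r z F} ⊆
        {F | (1 : ℝ≥0∞) ≤ nch ε ⌊r / (8 * ε)⌋₊ z (ENNReal.ofReal (κ * r + 1)) F} := by
      intro F hF
      have hF' : nch ε ⌊r / (8 * ε)⌋₊ z (ENNReal.ofReal (κ * r + 1))
          (res (Metric.ball z.1 r) F) ≠ 0 := hF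
      refine (one_le_nch ε _ z _ _ hF').trans (nch_mono_set ε _ z _ _ _ ?_)
      unfold res
      exact Finset.filter_subset _ _
    have hmk := mul_meas_ge_le_lintegral (μ := poi (mB B)) hm 1
    rw [one_mul] at hmk
    refine (measure_mono hsub).trans (hmk.trans ((hEN B hB hBf _ z (κ * r + 1) hz
      (by linarith)).trans (ENNReal.ofReal_le_ofReal ?_)))
    rw [one_mul]
    refine fact_est hε hM (by positivity) ?_ ?_
    · have h1 : M * (C₁ * (κ * r + 1)) = (κ * (2 * M * C₁)) * r / 2 + 2 * M * C₁ / 2 := by ring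
      rw [h1]
      have h2 : (κ * (2 * M * C₁)) * r ≤ 1 * r := by gcongr
      linarith
    · have h1 : r / (8 * ε) < (⌊r / (8 * ε)⌋₊ : ℝ) + 1 := Nat.lt_floor_add_one _
      have h2 : (1 : ℝ) ≤ r / (16 * ε) := by
        rw [le_div_iff₀ (by positivity)]; linarith
      have h3 : r / (8 * ε) = r / (16 * ε) + r / (16 * ε) := by field_simp; ring
      linarith

end Run7.h904.Met
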