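import Pool.Agent.Run7.h146.Met.I2

/-! Piece SM of the project MP_dd21b1_pr (helper146): second moment of `V_j`. -/

set_option autoImplicit false

open MeasureTheory Filter Topology ENNReal

namespace Run7.h904.Met

open Run7.h146.Met

/-- number of the `m` at distance less than `L` from `n` -/
theorem sum_near (a b n L : ℕ) (x : ℝ) (hx : 0 ≤ x) :
    ∑ m ∈ Finset.Ico a b, (if (n - m) + (m - n) < L then x else 0) ≤ 2 * L * x := by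
  classical
  rw [← Finset.sum_filter, Finset.sum_const, nsmul_eq_mul]
  refine mul_le_mul_of_nonneg_right ?_ hx
  have h1 : ((Finset.Ico a b).filter fun m => (n - m) + (m - n) < L) ⊆
      Finset.Ico (n + 1 - L) (n + L) := by
    intro m hm
    rw [Finset.mem_filter] at hm
    rw [Finset.mem_Ico]
    omega
  have h2 := Finset.card_le_card h1
  rw [Nat.card_Ico] at h2
  have h3 : ((Finset.Ico a b).filter fun m => (n - m) + (m - n) < L).card ≤ 2 * L := by omega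
  exact_mod_cast h3

theorem pow_exp_one {i : ℕ} (hi : 6 ≤ i) : 5 * i + 1 ≤ 2 ^ (i - 1) := by
  induction i, hi using Nat.le_induction with
  | base => norm_num
  | succ i hi ih =>
    have h1 : i + 1 - 1 = (i - 1) + 1 := by omega
    rw [h1, pow_succ]
    omega

/-- the exponential factor beats the powers of two -/
theorem exp_small {i : ℕ} (hi : 6 ≤ i) :
    (2 : ℝ) ^ (5 * i + 1) * Real.exp (-(2 : ℝ) ^ (i - 1)) ≤ 1 := by
  have h1 : (2 : ℝ) ^ (5 * i + 1) ≤ 2 ^ (2 ^ (i - 1)) :=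
    pow_le_pow_right₀ (by norm_num) (pow_exp_one hi)
  have h2 : (2 : ℝ) ^ (2 ^ (i - 1)) ≤ Real.exp ((2 : ℝ) ^ (i - 1)) := by
    have h3 : (2 : ℝ) ≤ Real.exp 1 := by
      have := Real.add_one_le_exp (1 : ℝ)
      linarith
    calc (2 : ℝ) ^ (2 ^ (i - 1)) ≤ (Real.exp 1) ^ (2 ^ (i - 1)) := by gcongr
      _ = Real.exp ((2 : ℝ) ^ (i - 1)) := by
        rw [← Real.exp_nat_mul]; simp
  rw [Real.exp_neg, ← div_eq_mul_inv, div_le_one (Real.exp_pos _)]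
  exact h1.trans h2

/-- the sum of the terms of the exponentials -/
theorem exp_sum (j : ℕ) (hj : 12 ≤ j) :
    ∑ i ∈ Finset.Icc (j / 2) (j + 1), (4 : ℝ) ^ i * Real.exp (-(2 : ℝ) ^ (i - 2)) ^ 2 ≤
      2 * (1 / 2) ^ j := by
  have hterm : ∀ i ∈ Finset.Icc (j / 2) (j + 1),
      (4 : ℝ) ^ i * Real.exp (-(2 : ℝ) ^ (i - 2)) ^ 2 ≤ (1 / 2) ^ j * (1 / 2) ^ i := by
    intro i hi
    rw [Finset.mem_Icc] at hi
    have hi6 : 6 ≤ i := by omega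
    have h1 := exp_small hi6
    have h2 : Real.exp (-(2 : ℝ) ^ (i - 2)) ^ 2 = Real.exp (-(2 : ℝ) ^ (i - 1)) := by
      rw [← Real.exp_nat_mul]
      congr 1
      have : i - 1 = (i - 2) + 1 := by omega
      rw [this, pow_succ]
      push_cast
      ring
    rw [h2]
    have h3 : (1 / 2 : ℝ) ^ (2 * i + 1) ≤ (1 / 2) ^ j :=
      pow_le_pow_of_le_one (by norm_num) (by norm_num) (by omega)
    have h4 : (4 : ℝ) ^ i * Real.exp (-(2 : ℝ) ^ (i - 1)) =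
        ((2 : ℝ) ^ (5 * i + 1) * Real.exp (-(2 : ℝ) ^ (i - 1))) *
          ((1 / 2 : ℝ) ^ (2 * i + 1) * (1 / 2) ^ i) := by
      have h5 : (4 : ℝ) ^ i = (2 : ℝ) ^ (5 * i + 1) * ((1 / 2 : ℝ) ^ (2 * i + 1) * (1 / 2) ^ i) := by
        have h6 : (2 : ℝ) ^ (5 * i + 1) = 4 ^ i * (2 ^ (2 * i + 1) * 2 ^ i) := by
          rw [show (4 : ℝ) = 2 ^ 2 by norm_num, ← pow_mul, ← pow_add, ← pow_add]
          congr 1; ring
        rw [h6, one_div, inv_pow, inv_pow]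
        field_simp
      rw [mul_right_comm, ← h5]
    rw [h4]
    calc ((2 : ℝ) ^ (5 * i + 1) * Real.exp (-(2 : ℝ) ^ (i - 1))) *
          ((1 / 2 : ℝ) ^ (2 * i + 1) * (1 / 2) ^ i) ≤
          1 * ((1 / 2 : ℝ) ^ (2 * i + 1) * (1 / 2) ^ i) := by gcongr
      _ ≤ (1 / 2) ^ j * (1 / 2) ^ i := by rw [one_mul]; gcongr
  refine (Finset.sum_le_sum hterm).trans ?_
  rw [← Finset.mul_sum, mul_comm]
  refine mul_le_mul_of_nonneg_right ?_ (by positivity)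
  calc ∑ i ∈ Finset.Icc (j / 2) (j + 1), (1 / 2 : ℝ) ^ i ≤
        ∑' i : ℕ, (1 / 2 : ℝ) ^ i := by
        refine Summable.sum_le_tsum _ (fun i _ => by positivity) ?_
        exact summable_geometric_of_lt_one (by norm_num) (by norm_num)
    _ = 2 := tsum_geometric_two

/-- the shifted sum is a part of `HH` -/
theorem shift_sum (P : ℕ → ℝ) (k j : ℕ) (hk : 1 ≤ k) (hj : 2 * k ≤ j) :
    ∑ i ∈ Finset.Icc (j / 2) (j + 1), (4 : ℝ) ^ i * P (i - k) ^ 2 ≤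
      4 ^ k * ∑ i ∈ Finset.Icc (j / 2 - k) j, ((2 : ℝ) ^ i * P i) ^ 2 := by
  have h1 : ∑ i ∈ Finset.Icc (j / 2) (j + 1), (4 : ℝ) ^ i * P (i - k) ^ 2 =
      ∑ i ∈ Finset.Icc (j / 2) (j + 1), (4 : ℝ) ^ k * ((2 : ℝ) ^ (i - k) * P (i - k)) ^ 2 := by
    refine Finset.sum_congr rfl fun i hi => ?_
    rw [Finset.mem_Icc] at hi
    have h2 : (4 : ℝ) ^ i = 4 ^ k * (2 ^ (i - k)) ^ 2 := by
      rw [← pow_mul, mul_comm (i - k) 2, pow_mul, show (2 : ℝ) ^ 2 = 4 by norm_num, ← pow_add]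
      congr 1; omega
    rw [h2, mul_pow]; ring
  rw [h1, ← Finset.mul_sum]
  refine mul_le_mul_of_nonneg_left ?_ (by positivity)
  have h3 : ∑ i ∈ Finset.Icc (j / 2) (j + 1), ((2 : ℝ) ^ (i - k) * P (i - k)) ^ 2 =
      ∑ i ∈ (Finset.Icc (j / 2) (j + 1)).image (fun i => i - k), ((2 : ℝ) ^ i * P i) ^ 2 := by
    rw [Finset.sum_image]
    intro a ha b hb hab
    simp only [Finset.coe_Icc, Set.mem_Icc] at ha hb
    simp only at hab
    omega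
  rw [h3]
  refine Finset.sum_le_sum_of_subset_of_nonneg ?_ (fun i _ _ => by positivity)
  intro i hi
  rw [Finset.mem_image] at hi
  obtain ⟨a, ha, rfl⟩ := hi
  rw [Finset.mem_Icc] at ha ⊢
  omega

/-- the kernel of two times of the same scale -/
noncomputable def ker (ε : ℝ) (j : ℕ) (q : ℝ) (qi : ℕ → ℝ) (l : ℕ) : ℝ :=
  (if (l : ℝ) ≤ 2 * ε then q else 0) +
    (if l < 2 ^ (j / 2) then (2 : ℝ) ^ (j / 2) / (2 : ℝ) ^ j * q else 0) +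
    ∑ i ∈ Finset.Icc (j / 2) (j + 1), if l < 2 ^ (i + 1) then (2 : ℝ) ^ i / (2 : ℝ) ^ j * qi i ^ 2
      else 0

theorem ker_nonneg (ε : ℝ) (j : ℕ) (q : ℝ) (qi : ℕ → ℝ) (hq : 0 ≤ q) (l : ℕ) :
    0 ≤ ker ε j q qi l := by
  unfold ker
  refine add_nonneg (add_nonneg ?_ ?_) (Finset.sum_nonneg fun i _ => ?_)
  · split_ifs <;> positivity
  · split_ifs <;> positivity
  · split_ifs <;> positivity

theorem ker_sum (ε : ℝ) (hε : 0 < ε) (j : ℕ) (q : ℝ) (qi : ℕ → ℝ) (hq : 0 ≤ q) :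
    ∑ n ∈ Finset.Ico (2 ^ j : ℕ) (2 ^ (j + 1) : ℕ), ∑ m ∈ Finset.Ico (2 ^ j : ℕ) (2 ^ (j + 1) : ℕ),
      ker ε j q qi ((n - m) + (m - n)) ≤
      (4 * ε + 4) * ((2 : ℝ) ^ j * q) +
        4 * ∑ i ∈ Finset.Icc (j / 2) (j + 1), (4 : ℝ) ^ i * qi i ^ 2 := by
  have h2j : (0 : ℝ) < 2 ^ j := by positivity
  have hn : ∀ n : ℕ, ∑ m ∈ Finset.Ico (2 ^ j : ℕ) (2 ^ (j + 1) : ℕ),
      ker ε j q qi ((n - m) + (m - n)) ≤ (4 * ε + 4) * q +
        (4 * ∑ i ∈ Finset.Icc (j / 2) (j + 1), (4 : ℝ) ^ i * qi i ^ 2) / 2 ^ j := by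
    intro n
    unfold ker
    rw [Finset.sum_add_distrib, Finset.sum_add_distrib, Finset.sum_comm]
    have hA : ∑ m ∈ Finset.Ico (2 ^ j : ℕ) (2 ^ (j + 1) : ℕ),
        (if (((n - m) + (m - n) : ℕ) : ℝ) ≤ 2 * ε then q else 0) ≤ (4 * ε + 2) * q := by
      have h1 : ∀ m ∈ Finset.Ico (2 ^ j : ℕ) (2 ^ (j + 1) : ℕ),
          (if (((n - m) + (m - n) : ℕ) : ℝ) ≤ 2 * ε then q else 0) =
          (if (n - m) + (m - n) < ⌊2 * ε⌋₊ + 1 then q else 0) := by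
        intro m _
        have h2 : ((((n - m) + (m - n) : ℕ) : ℝ) ≤ 2 * ε) ↔ (n - m) + (m - n) < ⌊2 * ε⌋₊ + 1 := by
          rw [Nat.lt_succ_iff, Nat.le_floor_iff (by positivity)]
        simp only [h2]
      rw [Finset.sum_congr rfl h1]
      refine (sum_near _ _ n _ q hq).trans ?_
      refine mul_le_mul_of_nonneg_right ?_ hq
      have := Nat.floor_le (show (0 : ℝ) ≤ 2 * ε by positivity)
      push_cast
      linarith
    have hB : ∑ m ∈ Finset.Ico (2 ^ j : ℕ) (2 ^ (j + 1) : ℕ),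
        (if (n - m) + (m - n) < 2 ^ (j / 2) then (2 : ℝ) ^ (j / 2) / (2 : ℝ) ^ j * q else 0) ≤
        2 * q := by
      refine (sum_near _ _ n _ _ (by positivity)).trans ?_
      push_cast
      have h1 : (2 : ℝ) ^ (j / 2) * 2 ^ (j / 2) ≤ 2 ^ j := by
        rw [← pow_add]
        exact pow_le_pow_right₀ (by norm_num) (by omega)
      calc 2 * (2 : ℝ) ^ (j / 2) * ((2 : ℝ) ^ (j / 2) / (2 : ℝ) ^ j * q) =
            2 * (((2 : ℝ) ^ (j / 2) * 2 ^ (j / 2)) / 2 ^ j) * q := by ring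
        _ ≤ 2 * 1 * q := by
          gcongr
          rw [div_le_one h2j]
          exact h1
        _ = 2 * q := by ring
    have hD : ∑ i ∈ Finset.Icc (j / 2) (j + 1), ∑ m ∈ Finset.Ico (2 ^ j : ℕ) (2 ^ (j + 1) : ℕ),
        (if (n - m) + (m - n) < 2 ^ (i + 1) then (2 : ℝ) ^ i / (2 : ℝ) ^ j * qi i ^ 2 else 0) ≤
        (4 * ∑ i ∈ Finset.Icc (j / 2) (j + 1), (4 : ℝ) ^ i * qi i ^ 2) / 2 ^ j := by
      rw [Finset.mul_sum, Finset.sum_div]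
      refine Finset.sum_le_sum fun i _ => ?_
      refine (sum_near _ _ n _ _ (by positivity)).trans (le_of_eq ?_)
      push_cast
      have h1 : (4 : ℝ) ^ i = 2 ^ i * 2 ^ i := by
        rw [← mul_pow]; norm_num
      rw [h1, pow_succ]
      ring
    linarith
  refine (Finset.sum_le_sum fun n _ => hn n).trans (le_of_eq ?_)
  rw [Finset.sum_const, Nat.card_Ico, nsmul_eq_mul]
  have h3 : ((2 ^ (j + 1) - 2 ^ j : ℕ) : ℝ) = 2 ^ j := by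
    have : 2 ^ (j + 1) - 2 ^ j = 2 ^ j := by rw [pow_succ]; omega
    rw [this]; push_cast; rfl
  rw [h3]
  field_simp

/-- the real estimate -/
theorem real_est (ε : ℝ) (hε : 0 < ε) (P : ℕ → ℝ) (hP : ∀ i, 0 ≤ P i) (k j : ℕ) (hk : 1 ≤ k)
    (hj : 2 * k ≤ j) (hj12 : 12 ≤ j) :
    (4 * ε + 4) * ((2 : ℝ) ^ j * (P (j - k) + Real.exp (-(2 : ℝ) ^ (j - 1)))) +
        4 * ∑ i ∈ Finset.Icc (j / 2) (j + 1), (4 : ℝ) ^ i *
          (P (i - k) + Real.exp (-(2 : ℝ) ^ (i - 2))) ^ 2 ≤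
      (4 * ε + 4 + 8 * 4 ^ k + 16) * ((2 : ℝ) ^ j * P (j - k) + HH P k j) := by
  have h1 : ∑ i ∈ Finset.Icc (j / 2) (j + 1), (4 : ℝ) ^ i *
      (P (i - k) + Real.exp (-(2 : ℝ) ^ (i - 2))) ^ 2 ≤
      2 * (∑ i ∈ Finset.Icc (j / 2) (j + 1), (4 : ℝ) ^ i * P (i - k) ^ 2) +
      2 * ∑ i ∈ Finset.Icc (j / 2) (j + 1), (4 : ℝ) ^ i * Real.exp (-(2 : ℝ) ^ (i - 2)) ^ 2 := by
    rw [Finset.mul_sum, Finset.mul_sum, ← Finset.sum_add_distrib]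
    refine Finset.sum_le_sum fun i _ => ?_
    have h2 : (P (i - k) + Real.exp (-(2 : ℝ) ^ (i - 2))) ^ 2 ≤
        2 * P (i - k) ^ 2 + 2 * Real.exp (-(2 : ℝ) ^ (i - 2)) ^ 2 := by
      nlinarith [sq_nonneg (P (i - k) - Real.exp (-(2 : ℝ) ^ (i - 2)))]
    calc (4 : ℝ) ^ i * (P (i - k) + Real.exp (-(2 : ℝ) ^ (i - 2))) ^ 2 ≤
          (4 : ℝ) ^ i * (2 * P (i - k) ^ 2 + 2 * Real.exp (-(2 : ℝ) ^ (i - 2)) ^ 2) := by gcongr
      _ = _ := by ring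
  have h3 := shift_sum P k j hk hj
  have h4 := exp_sum j hj12
  have h5 : (2 : ℝ) ^ j * Real.exp (-(2 : ℝ) ^ (j - 1)) ≤ (1 / 2) ^ j := by
    have h6 := exp_small (i := j) (by omega)
    have h7 : (2 : ℝ) ^ j * Real.exp (-(2 : ℝ) ^ (j - 1)) =
        ((2 : ℝ) ^ (5 * j + 1) * Real.exp (-(2 : ℝ) ^ (j - 1))) * ((1 / 2 : ℝ) ^ (4 * j + 1)) := by
      have h8 : (2 : ℝ) ^ (5 * j + 1) = 2 ^ j * 2 ^ (4 * j + 1) := by
        rw [← pow_add]; congr 1; ring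
      rw [h8, one_div, inv_pow]
      field_simp
    rw [h7]
    calc ((2 : ℝ) ^ (5 * j + 1) * Real.exp (-(2 : ℝ) ^ (j - 1))) * ((1 / 2 : ℝ) ^ (4 * j + 1)) ≤
          1 * ((1 / 2 : ℝ) ^ (4 * j + 1)) := by gcongr
      _ = (1 / 2 : ℝ) ^ (4 * j + 1) := one_mul _
      _ ≤ (1 / 2) ^ j := pow_le_pow_of_le_one (by norm_num) (by norm_num) (by omega)
  have h6 : 0 ≤ (2 : ℝ) ^ j * P (j - k) := mul_nonneg (by positivity) (hP _)
  have h7 : 0 ≤ ∑ i ∈ Finset.Icc (j / 2 - k) j, ((2 : ℝ) ^ i * P i) ^ 2 :=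
    Finset.sum_nonneg fun i _ => by positivity
  have h8 : (0 : ℝ) ≤ (1 / 2) ^ j := by positivity
  have h9 : (0 : ℝ) ≤ 4 ^ k := by positivity
  unfold HH
  set S := ∑ i ∈ Finset.Icc (j / 2 - k) j, ((2 : ℝ) ^ i * P i) ^ 2
  have h10 : (4 * ε + 4) * ((2 : ℝ) ^ j * (P (j - k) + Real.exp (-(2 : ℝ) ^ (j - 1)))) ≤
      (4 * ε + 4) * ((2 : ℝ) ^ j * P (j - k) + (1 / 2) ^ j) := by
    refine mul_le_mul_of_nonneg_left ?_ (by positivity)
    rw [mul_add]; linarith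
  have h11 : 0 ≤ (8 * 4 ^ k + 16) * ((2 : ℝ) ^ j * P (j - k)) := by positivity
  have h12 : 0 ≤ (4 * ε + 4 + 16) * S := by positivity
  have h13 : 0 ≤ (8 * 4 ^ k) * (1 / 2 : ℝ) ^ j := by positivity
  nlinarith

theorem t_SM : S_MEAS → S_SMA → S_SM := by
  classical
  intro MEAS SMA d ε κ C r₀ hd hε core
  obtain ⟨k₀, hk₀⟩ := SMA d ε κ C r₀ hd hε core
  refine ⟨max k₀ 1, fun k hk => ?_⟩
  have hkk : k₀ ≤ k := le_trans (le_max_left _ _) hk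
  have hk1 : 1 ≤ k := le_trans (le_max_right _ _) hk
  obtain ⟨C₁, hC₁, hR⟩ := hk₀ k hkk
  have hpk : (0 : ℝ) < 4 ^ k := by positivity
  refine ⟨C₁ * (4 * ε + 4 + 8 * 4 ^ k + 16), ?_, fun R => ?_⟩
  · nlinarith
  obtain ⟨j₀, hj₀⟩ := hR R
  refine ⟨max j₀ (max (2 * k) 12), fun j hj A Q hA hQ => ?_⟩
  have hjj : j₀ ≤ j := le_trans (le_max_left _ _) hj
  have hj2k : 2 * k ≤ j := le_trans (le_trans (le_max_left _ _) (le_max_right _ _)) hj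
  have hj12 : 12 ≤ j := le_trans (le_trans (le_max_right _ _) (le_max_right _ _)) hj
  have hUn : ∀ t : ℝ, Measurable (Un (d := d) ε t) :=
    (MEAS d ε (by omega) hε).2.2.2.2.2.2.2.2.2.1
  have hmain := hj₀ j hjj A Q hA hQ
  obtain ⟨q, hqd⟩ : ∃ q : ℝ, q = pp d ε ((2 : ℝ) ^ (j - k)) + Real.exp (-(2 : ℝ) ^ (j - 1)) :=
    ⟨_, rfl⟩
  obtain ⟨qi, hqid⟩ : ∃ qi : ℕ → ℝ, qi = fun i => pp d ε ((2 : ℝ) ^ (i - k)) +
      Real.exp (-(2 : ℝ) ^ (i - 2)) := ⟨_, rfl⟩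
  have hq : 0 ≤ q := by
    rw [hqd]
    exact add_nonneg (core.rng _).1 (Real.exp_pos _).le
  have hle : ∀ n m : ℕ, 2 ^ j ≤ n → n ≤ m → m < 2 ^ (j + 1) →
      ∫⁻ F in {F | res (Metric.ball 0 R) F ∈ A}, Un ε (n : ℝ) F * Un ε (m : ℝ) F ∂(PQ d Q) ≤
        PQ d R A * ENNReal.ofReal (C₁ * ker ε j q qi (m - n)) := by
    intro n m h1 h2 h3
    refine (hmain n m h1 h2 h3).trans (le_of_eq ?_)
    unfold ker
    rw [hqd, hqid, Nat.cast_sub h2]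
  have hall : ∀ n ∈ Finset.Ico (2 ^ j : ℕ) (2 ^ (j + 1) : ℕ),
      ∀ m ∈ Finset.Ico (2 ^ j : ℕ) (2 ^ (j + 1) : ℕ),
      ∫⁻ F in {F | res (Metric.ball 0 R) F ∈ A}, Un ε (n : ℝ) F * Un ε (m : ℝ) F ∂(PQ d Q) ≤
        PQ d R A * ENNReal.ofReal (C₁ * ker ε j q qi ((n - m) + (m - n))) := by
    intro n hn m hm
    rw [Finset.mem_Ico] at hn hm
    rcases le_total n m with h | h
    · have h1 : n - m + (m - n) = m - n := by omega
      rw [h1]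
      exact hle n m hn.1 h hm.2
    · have h1 : n - m + (m - n) = n - m := by omega
      rw [h1]
      refine le_trans (le_of_eq ?_) (hle m n hm.1 h hn.2)
      refine lintegral_congr fun F => mul_comm _ _
  have hexp : ∀ F : Finset (X d), Vj ε j F ^ 2 =
      ∑ n ∈ Finset.Ico (2 ^ j : ℕ) (2 ^ (j + 1) : ℕ),
        ∑ m ∈ Finset.Ico (2 ^ j : ℕ) (2 ^ (j + 1) : ℕ), Un ε (n : ℝ) F * Un ε (m : ℝ) F := by
    intro F
    unfold Vj
    rw [pow_two, Finset.sum_mul_sum]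
  have hint : ∫⁻ F in {F | res (Metric.ball 0 R) F ∈ A}, Vj ε j F ^ 2 ∂(PQ d Q) =
      ∑ n ∈ Finset.Ico (2 ^ j : ℕ) (2 ^ (j + 1) : ℕ),
        ∑ m ∈ Finset.Ico (2 ^ j : ℕ) (2 ^ (j + 1) : ℕ),
        ∫⁻ F in {F | res (Metric.ball 0 R) F ∈ A}, Un ε (n : ℝ) F * Un ε (m : ℝ) F ∂(PQ d Q) := by
    rw [lintegral_congr hexp, lintegral_finsetSum _ (fun n _ => ?_)]
    · refine Finset.sum_congr rfl fun n _ => ?_
      exact lintegral_finsetSum _ (fun m _ => ((hUn (n : ℝ)).mul (hUn (m : ℝ)) :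
        Measurable fun F => Un ε (n : ℝ) F * Un ε (m : ℝ) F))
    · exact Finset.measurable_fun_sum _ (fun m _ => (hUn _).mul (hUn _))
  rw [hint]
  refine (Finset.sum_le_sum fun n hn => Finset.sum_le_sum fun m hm => hall n hn m hm).trans ?_
  have hkn : ∀ l, 0 ≤ C₁ * ker ε j q qi l := fun l =>
    mul_nonneg (by linarith) (ker_nonneg ε j q qi hq l)
  have hcol : ∑ n ∈ Finset.Ico (2 ^ j : ℕ) (2 ^ (j + 1) : ℕ),
      ∑ m ∈ Finset.Ico (2 ^ j : ℕ) (2 ^ (j + 1) : ℕ),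
        PQ d R A * ENNReal.ofReal (C₁ * ker ε j q qi ((n - m) + (m - n))) =
      PQ d R A * ENNReal.ofReal (C₁ * ∑ n ∈ Finset.Ico (2 ^ j : ℕ) (2 ^ (j + 1) : ℕ),
        ∑ m ∈ Finset.Ico (2 ^ j : ℕ) (2 ^ (j + 1) : ℕ), ker ε j q qi ((n - m) + (m - n))) := by
    rw [Finset.mul_sum, ENNReal.ofReal_sum_of_nonneg, Finset.mul_sum]
    · refine Finset.sum_congr rfl fun n _ => ?_
      rw [Finset.mul_sum, ENNReal.ofReal_sum_of_nonneg (fun m _ => hkn _), Finset.mul_sum]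
    · intro n _
      rw [Finset.mul_sum]
      exact Finset.sum_nonneg fun m _ => hkn _
  rw [hcol]
  refine mul_le_mul_right (ENNReal.ofReal_le_ofReal ?_) _
  rw [mul_assoc]
  refine mul_le_mul_of_nonneg_left ?_ (by linarith)
  refine (ker_sum ε hε j q qi hq).trans ?_
  rw [hqd, hqid]
  exact real_est ε hε (fun i => pp d ε ((2 : ℝ) ^ i)) (fun i => (core.rng _).1) k j
    hk1 hj2k hj12

end Run7.h904.Met
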